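import Mathlib

/-!
# CV/GROW: growth of the exponents
-/

set_option autoImplicit false

namespace Pool.Agent.N868.CV

open Filter Topology

theorem grow (e : ℕ → ℝ)
    (he : ∀ c : ℝ, 1 / (8 * (Real.log 2) ^ 2) < c →
      ∀ᶠ n : ℕ in Filter.atTop, e n ≤ c * (Real.log n) ^ 2)
    (he0 : ∀ n, 0 ≤ e n) (N : ℕ) (hN : 1 ≤ N) (c0 : ℕ) (G : ℝ) :
    ∃ n0 : ℕ, ∀ n : ℕ, n0 ≤ n → ∀ r : ℕ, r ≤ N * n + c0 →
      G * e r + 2 * N < (N * (n + 1) : ℕ) := by
  obtain ⟨c, hc⟩ : ∃ c, c = 1 / (8 * (Real.log 2) ^ 2) + 1 := ⟨_, rfl⟩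
  have hc0 : 0 < c := by rw [hc]; positivity
  obtain ⟨r0, hr0⟩ := eventually_atTop.1 (he c (by rw [hc]; linarith))
  obtain ⟨C1, hC1⟩ : ∃ C1 : ℝ, C1 = ∑ r ∈ Finset.range r0, e r := ⟨_, rfl⟩
  have hC10 : 0 ≤ C1 := by rw [hC1]; exact Finset.sum_nonneg fun r _ => he0 r
  have hbd : ∀ r x : ℕ, r ≤ x → 1 ≤ x → e r ≤ C1 + c * (Real.log x) ^ 2 := by
    intro r x hrx hx
    rcases lt_or_ge r r0 with h | h
    · have h1 : e r ≤ C1 := by
        rw [hC1]
        exact Finset.single_le_sum (f := e) (fun i _ => he0 i) (Finset.mem_range.2 h)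
      have h2 : 0 ≤ c * (Real.log x) ^ 2 := by positivity
      linarith
    · have h1 := hr0 r h
      have h2 : Real.log r ^ 2 ≤ Real.log x ^ 2 := by
        rcases Nat.eq_zero_or_pos r with rfl | hr
        · rw [Nat.cast_zero, Real.log_zero, zero_pow two_ne_zero]
          positivity
        · have a1 : 0 ≤ Real.log r := Real.log_natCast_nonneg r
          have a2 : Real.log r ≤ Real.log x :=
            Real.log_le_log (by exact_mod_cast hr) (by exact_mod_cast hrx)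
          gcongr
      have h3 : c * (Real.log r) ^ 2 ≤ c * (Real.log x) ^ 2 := by gcongr
      linarith
  -- growth
  obtain ⟨K, hK⟩ : ∃ K : ℝ, K = |G| * c + 1 := ⟨_, rfl⟩
  have hK0 : 0 < K := by rw [hK]; positivity
  have hlo : ∀ᶠ x : ℝ in atTop, Real.log x ^ 2 ≤ 1 / (4 * K) * x := by
    have h1 := (Real.isLittleO_pow_log_id_atTop (n := 2)).bound
      (c := 1 / (4 * K)) (by positivity)
    filter_upwards [h1, eventually_ge_atTop (0:ℝ)] with x h2 h3
    rw [Real.norm_of_nonneg (sq_nonneg _), id, Real.norm_of_nonneg h3] at h2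
    exact h2
  have hlim : Tendsto (fun n : ℕ => ((N * n + c0 + 1 : ℕ) : ℝ)) atTop atTop := by
    apply tendsto_natCast_atTop_atTop.comp
    apply tendsto_atTop_mono (f := fun n : ℕ => n) _ tendsto_id
    intro n
    nlinarith
  have hev := (hlim.eventually hlo).and
    ((tendsto_natCast_atTop_atTop (R := ℝ)).eventually_ge_atTop
      (2 * (|G| * C1 + 2 * N + (c0 + 1))))
  obtain ⟨n0, hn0⟩ := eventually_atTop.1 hev
  refine ⟨n0, fun n hn r hr => ?_⟩
  obtain ⟨b1, b2⟩ := hn0 n hn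
  have h1 := hbd r (N * n + c0 + 1) (by omega) (by omega)
  obtain ⟨X, hX⟩ : ∃ X : ℝ, X = ((N * n + c0 + 1 : ℕ) : ℝ) := ⟨_, rfl⟩
  rw [← hX] at b1 h1
  have hXe : X = N * n + c0 + 1 := by rw [hX]; push_cast; ring
  have h2 : G * e r ≤ |G| * (C1 + c * Real.log X ^ 2) := by
    calc G * e r ≤ |G| * e r := mul_le_mul_of_nonneg_right (le_abs_self G) (he0 r)
      _ ≤ _ := mul_le_mul_of_nonneg_left h1 (abs_nonneg G)
  have h3 : |G| * c * Real.log X ^ 2 ≤ 1 / 4 * X := by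
    calc |G| * c * Real.log X ^ 2 ≤ K * Real.log X ^ 2 := by
          rw [hK]
          have := sq_nonneg (Real.log X)
          nlinarith
      _ ≤ K * (1 / (4 * K) * X) := by gcongr
      _ = 1 / 4 * X := by field_simp
  have hNr : (1:ℝ) ≤ N := by exact_mod_cast hN
  have hn : (n:ℝ) ≤ N * n := by nlinarith [(Nat.cast_nonneg n : (0:ℝ) ≤ n)]
  have hg : 0 ≤ |G| * C1 := mul_nonneg (abs_nonneg G) hC10
  push_cast
  have hc0' : (0:ℝ) ≤ c0 := Nat.cast_nonneg c0
  calc G * e r + 2 * N ≤ |G| * C1 + |G| * c * Real.log X ^ 2 + 2 * N := by linarith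
    _ ≤ |G| * C1 + 1 / 4 * X + 2 * N := by linarith
    _ < N * (n + 1) := by
      rw [hXe]
      linarith

end Pool.Agent.N868.CV
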